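import Mathlib

/-!
# Parallel flips in triangulations of finite point sets: definitions

Used for MP_797cb5_co.
-/

set_option autoImplicit false

namespace Pool.Agent.K3h68.HE

/-- points of the plane -/
abbrev Pt : Type := ℝ × ℝ

/-- the closed straight-line segment with the given pair of endpoints -/
def seg (e : Sym2 Pt) : Set Pt := convexHull ℝ {p | p ∈ e}

/-- two segments cross if they meet at a point that is not an endpoint of either -/
def Cross (e f : Sym2 Pt) : Prop := ∃ x, x ∈ seg e ∧ x ∈ seg f ∧ x ∉ e ∧ x ∉ f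

/-- a segment with two distinct endpoints in `S` and no other point of `S` on it -/
def IsEdge (S : Finset Pt) (e : Sym2 Pt) : Prop :=
  ¬ e.IsDiag ∧ (∀ p ∈ e, p ∈ S) ∧ ∀ p ∈ S, p ∈ seg e → p ∈ e

/-- a set of pairwise non-crossing segments, each with both endpoints in `S` and no other point
of `S` on it -/
def IsPlane (S : Finset Pt) (T : Set (Sym2 Pt)) : Prop :=
  (∀ e ∈ T, IsEdge S e) ∧ ∀ e ∈ T, ∀ f ∈ T, e ≠ f → ¬ Cross e f

/-- a triangulation of `S`: a maximal set of pairwise non-crossing segments -/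
def IsTriangulation (S : Finset Pt) (T : Set (Sym2 Pt)) : Prop :=
  Maximal (IsPlane S) T

/-- `a b c` are the vertices of a triangle (a face) of `T` -/
def IsTriangle (S : Finset Pt) (T : Set (Sym2 Pt)) (a b c : Pt) : Prop :=
  s(a, b) ∈ T ∧ s(b, c) ∈ T ∧ s(a, c) ∈ T ∧
    ∀ p ∈ S, p ∈ convexHull ℝ ({a, b, c} : Set Pt) → p = a ∨ p = b ∨ p = c

/-- `e` and `f` are edges of a common triangle of `T` -/
def CommonTriangle (S : Finset Pt) (T : Set (Sym2 Pt)) (e f : Sym2 Pt) : Prop :=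
  ∃ a b c : Pt, IsTriangle S T a b c ∧ e ∈ ({s(a, b), s(b, c), s(a, c)} : Set (Sym2 Pt)) ∧
    f ∈ ({s(a, b), s(b, c), s(a, c)} : Set (Sym2 Pt))

/-- one parallel flip turns `T` into `T'` -/
def ParallelFlip (S : Finset Pt) (T T' : Set (Sym2 Pt)) : Prop :=
  ∃ E ⊆ T, (∀ e ∈ E, ∀ f ∈ E, e ≠ f → ¬ CommonTriangle S T e f) ∧
    ∃ E' : Set (Sym2 Pt), T' = (T \ E) ∪ E' ∧ IsTriangulation S T'

/-- `P 0 = T, P 1, …, P ℓ = T'` is a path of length `ℓ` of triangulations of `S`, each obtained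
from the previous one by one parallel flip -/
def IsPath (S : Finset Pt) (T T' : Set (Sym2 Pt)) (l : ℕ) (P : ℕ → Set (Sym2 Pt)) : Prop :=
  P 0 = T ∧ P l = T' ∧ (∀ i ≤ l, IsTriangulation S (P i)) ∧
    ∀ i < l, ParallelFlip S (P i) (P (i + 1))

/-- a path from `T` to `T'` such that no path from `T` to `T'` has smaller length -/
def IsShortest (S : Finset Pt) (T T' : Set (Sym2 Pt)) (l : ℕ) (P : ℕ → Set (Sym2 Pt)) : Prop :=
  IsPath S T T' l P ∧ ∀ (m : ℕ) (Q : ℕ → Set (Sym2 Pt)), IsPath S T T' m Q → l ≤ m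

end Pool.Agent.K3h68.HE
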