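import Mathlib
import Pool.Agent.K3h68.HE.Stm

/-!
# Crossing of segments in terms of orientations
-/

set_option autoImplicit false

namespace Pool.Agent.K3h68.HE

/-- twice the signed area of the triangle `a b x` -/
def sa (a b x : Pt) : ℝ := (b.1 - a.1) * (x.2 - a.2) - (b.2 - a.2) * (x.1 - a.1)

theorem seg_mk (a b : Pt) : seg s(a, b) = segment ℝ a b := by
  have h : {p : Pt | p ∈ s(a, b)} = {a, b} := by
    ext p
    simp [Sym2.mem_iff]
  rw [seg, h, convexHull_pair]

theorem mem_seg {a b x : Pt} (h : x ∈ seg s(a, b)) :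
    ∃ t : ℝ, 0 ≤ t ∧ t ≤ 1 ∧ x.1 = (1 - t) * a.1 + t * b.1 ∧ x.2 = (1 - t) * a.2 + t * b.2 := by
  rw [seg_mk] at h
  obtain ⟨u, v, hu, hv, huv, rfl⟩ := h
  refine ⟨v, hv, by linarith, ?_, ?_⟩
  · have : u = 1 - v := by linarith
    subst this
    simp
  · have : u = 1 - v := by linarith
    subst this
    simp

theorem mem_seg_of {a b x : Pt} (t : ℝ) (h0 : 0 ≤ t) (h1 : t ≤ 1)
    (hx : x.1 = (1 - t) * a.1 + t * b.1) (hy : x.2 = (1 - t) * a.2 + t * b.2) :
    x ∈ seg s(a, b) := by
  rw [seg_mk]
  refine ⟨1 - t, t, by linarith, h0, by ring, ?_⟩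
  ext
  · simp [hx]
  · simp [hy]

/-- properly crossing segments cross -/
theorem cross_of {a b c d : Pt} (h1 : sa a b c * sa a b d < 0) (h2 : sa c d a * sa c d b < 0) :
    Cross s(a, b) s(c, d) := by
  have hc : sa c d a ≠ 0 := by
    intro h; rw [h, zero_mul] at h2; exact lt_irrefl _ h2
  have hd : sa c d b ≠ 0 := by
    intro h; rw [h, mul_zero] at h2; exact lt_irrefl _ h2
  have ha : sa a b c ≠ 0 := by
    intro h; rw [h, zero_mul] at h1; exact lt_irrefl _ h1
  have hb : sa a b d ≠ 0 := by
    intro h; rw [h, mul_zero] at h1; exact lt_irrefl _ h1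
  have hD : sa c d a - sa c d b ≠ 0 := by
    intro h
    have : sa c d a = sa c d b := by linarith
    rw [this] at h2
    nlinarith [mul_self_nonneg (sa c d b)]
  have hD' : sa a b c - sa a b d ≠ 0 := by
    intro h
    have : sa a b c = sa a b d := by linarith
    rw [this] at h1
    nlinarith [mul_self_nonneg (sa a b d)]
  -- ratio between `0` and `1`
  have ratio : ∀ p q : ℝ, p * q < 0 → 0 ≤ p / (p - q) ∧ p / (p - q) ≤ 1 := by
    intro p q hpq
    rcases lt_or_gt_of_ne (show p ≠ 0 by intro h; rw [h, zero_mul] at hpq; exact lt_irrefl _ hpq)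
      with hp | hp
    · have hq : 0 < q := by
        by_contra hq
        push Not at hq
        nlinarith
      constructor
      · exact div_nonneg_of_nonpos (by linarith) (by linarith)
      · rw [div_le_one_of_neg (by linarith)]
        linarith
    · have hq : q < 0 := by
        by_contra hq
        push Not at hq
        nlinarith
      constructor
      · exact div_nonneg (by linarith) (by linarith)
      · rw [div_le_one (by linarith)]
        linarith
  obtain ⟨ht0, ht1⟩ := ratio _ _ h2
  obtain ⟨hs0, hs1⟩ := ratio _ _ h1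
  set t := sa c d a / (sa c d a - sa c d b) with ht
  set s := sa a b c / (sa a b c - sa a b d) with hs
  let x : Pt := ((1 - t) * a.1 + t * b.1, (1 - t) * a.2 + t * b.2)
  have e1 : (1 - t) * a.1 + t * b.1 = (1 - s) * c.1 + s * d.1 := by
    rw [ht, hs]
    field_simp
    unfold sa
    ring
  have e2 : (1 - t) * a.2 + t * b.2 = (1 - s) * c.2 + s * d.2 := by
    rw [ht, hs]
    field_simp
    unfold sa
    ring
  have hx1 : sa a b x = 0 := by
    unfold sa
    simp only [x]
    ring
  have hx2 : sa c d x = 0 := by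
    unfold sa
    simp only [x]
    rw [e1, e2]
    ring
  refine ⟨x, mem_seg_of t ht0 ht1 rfl rfl, mem_seg_of s hs0 hs1 e1 e2, ?_, ?_⟩
  · rw [Sym2.mem_iff]
    rintro (h | h)
    · rw [h] at hx2
      exact hc hx2
    · rw [h] at hx2
      exact hd hx2
  · rw [Sym2.mem_iff]
    rintro (h | h)
    · rw [h] at hx1
      exact ha hx1
    · rw [h] at hx1
      exact hb hx1

theorem cross_comm {e f : Sym2 Pt} (h : Cross e f) : Cross f e := by
  obtain ⟨x, h1, h2, h3, h4⟩ := h
  exact ⟨x, h2, h1, h4, h3⟩

theorem sa_left (a b : Pt) : sa a b a = 0 := by unfold sa; ring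

theorem sa_right (a b : Pt) : sa a b b = 0 := by unfold sa; ring

theorem sa_affine (a b c d x : Pt) (t : ℝ) (hx : x.1 = (1 - t) * c.1 + t * d.1)
    (hy : x.2 = (1 - t) * c.2 + t * d.2) :
    sa a b x = (1 - t) * sa a b c + t * sa a b d := by
  unfold sa
  rw [hx, hy]
  ring

/-- if `c`, `d` lie on one side of the line `a b`, not both on the line, there is no crossing -/
theorem not_cross_pos {a b c d : Pt} (hc : 0 ≤ sa a b c) (hd : 0 ≤ sa a b d)
    (h : 0 < sa a b c ∨ 0 < sa a b d) : ¬ Cross s(a, b) s(c, d) := by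
  rintro ⟨x, h1, h2, -, h4⟩
  obtain ⟨t, -, -, ht1, ht2⟩ := mem_seg h1
  obtain ⟨s, hs0, hs1, hs2, hs3⟩ := mem_seg h2
  have e1 := sa_affine a b a b x t ht1 ht2
  rw [sa_left, sa_right] at e1
  have e2 := sa_affine a b c d x s hs2 hs3
  rw [e1] at e2
  have p1 : 0 ≤ (1 - s) * sa a b c := mul_nonneg (by linarith) hc
  have p2 : 0 ≤ s * sa a b d := mul_nonneg hs0 hd
  apply h4
  rw [Sym2.mem_iff]
  rcases h with h | h
  · have : (1 - s) * sa a b c = 0 := by linarith
    have hs : s = 1 := by
      rcases mul_eq_zero.mp this with h' | h'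
      · linarith
      · linarith
    subst hs
    right
    ext
    · rw [hs2]; ring
    · rw [hs3]; ring
  · have : s * sa a b d = 0 := by linarith
    have hs : s = 0 := by
      rcases mul_eq_zero.mp this with h' | h'
      · linarith
      · linarith
    subst hs
    left
    ext
    · rw [hs2]; ring
    · rw [hs3]; ring

theorem sa_swap (a b x : Pt) : sa b a x = - sa a b x := by unfold sa; ring

/-- if there is no proper crossing, and `c`, `d` are not both on the line `a b`, and `a`, `b` not
both on the line `c d`, then there is no crossing -/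
theorem not_cross_of {a b c d : Pt} (h1 : sa a b c ≠ 0 ∨ sa a b d ≠ 0)
    (h2 : sa c d a ≠ 0 ∨ sa c d b ≠ 0)
    (h : ¬ (sa a b c * sa a b d < 0 ∧ sa c d a * sa c d b < 0)) : ¬ Cross s(a, b) s(c, d) := by
  -- one half, to be used twice
  have key : ∀ a b c d : Pt, (sa a b c ≠ 0 ∨ sa a b d ≠ 0) → 0 ≤ sa a b c * sa a b d →
      ¬ Cross s(a, b) s(c, d) := by
    intro a b c d h1 h
    have hsgn : (0 ≤ sa a b c ∧ 0 ≤ sa a b d) ∨ (sa a b c ≤ 0 ∧ sa a b d ≤ 0) := by
      rcases mul_nonneg_iff.mp h with h | h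
      · exact Or.inl h
      · exact Or.inr h
    rcases hsgn with ⟨hc, hd⟩ | ⟨hc, hd⟩
    · refine not_cross_pos hc hd ?_
      rcases h1 with h1 | h1
      · exact Or.inl (lt_of_le_of_ne hc (Ne.symm h1))
      · exact Or.inr (lt_of_le_of_ne hd (Ne.symm h1))
    · rw [Sym2.eq_swap (a := a)]
      refine not_cross_pos (by rw [sa_swap]; linarith) (by rw [sa_swap]; linarith) ?_
      rcases h1 with h1 | h1
      · left
        rw [sa_swap]
        have := lt_of_le_of_ne hc h1
        linarith
      · right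
        rw [sa_swap]
        have := lt_of_le_of_ne hd h1
        linarith
  rw [not_and_or] at h
  rcases h with h | h
  · exact key a b c d h1 (not_lt.mp h)
  · intro hc
    exact key c d a b h2 (not_lt.mp h) (cross_comm hc)

/-- a functional that is nonnegative at the vertices of a triangle is nonnegative on it -/
theorem sa_nonneg_hull {p q a b c x : Pt} (ha : 0 ≤ sa p q a) (hb : 0 ≤ sa p q b)
    (hc : 0 ≤ sa p q c) (hx : x ∈ convexHull ℝ ({a, b, c} : Set Pt)) : 0 ≤ sa p q x := by
  have hconv : Convex ℝ {y : Pt | 0 ≤ sa p q y} := by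
    intro y hy z hz u v hu hv huv
    have : sa p q (u • y + v • z) = u * sa p q y + v * sa p q z := by
      have hu' : u = 1 - v := by linarith
      exact (sa_affine p q y z _ v (by simp [hu']) (by simp [hu'])).trans (by rw [hu'])
    simp only [Set.mem_setOf_eq] at hy hz ⊢
    rw [this]
    exact add_nonneg (mul_nonneg hu hy) (mul_nonneg hv hz)
  have hsub : ({a, b, c} : Set Pt) ⊆ {y : Pt | 0 ≤ sa p q y} := by
    intro y hy
    simp only [Set.mem_insert_iff, Set.mem_singleton_iff] at hy
    rcases hy with rfl | rfl | rfl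
    · exact ha
    · exact hb
    · exact hc
  exact convexHull_min hsub hconv hx

/-- on the segment `a b` the functional of the line `a b` vanishes -/
theorem sa_seg {a b x : Pt} (h : x ∈ seg s(a, b)) : sa a b x = 0 := by
  obtain ⟨t, -, -, ht1, ht2⟩ := mem_seg h
  have e1 := sa_affine a b a b x t ht1 ht2
  rw [sa_left, sa_right] at e1
  linarith

end Pool.Agent.K3h68.HE
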