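import Mathlib
import Pool.Agent.K3h68.HE.Stm

/-!
# The sixteen points
-/

set_option autoImplicit false

namespace Pool.Agent.K3h68.HE

/-- first coordinates of the sixteen points -/
def X (i : Fin 16) : ℤ := [0, 1, 2, 3, 4, 5, 6, 7, 6, 5, 4, 3, 2, 1, 0, -1].getD i.val 0

/-- second coordinates of the sixteen points -/
def Y (i : Fin 16) : ℤ :=
  [-39, -34, -31, -30, -31, -34, -39, 0, 39, 34, 31, 30, 31, 34, 39, 0].getD i.val 0

/-- the points -/
def pt (i : Fin 16) : Pt := ((X i : ℝ), (Y i : ℝ))

/-- orientation of three of the points -/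
def ori (i j k : Fin 16) : ℤ := (X j - X i) * (Y k - Y i) - (Y j - Y i) * (X k - X i)

/-- crossing of the segments `i j` and `k l` -/
def cr (i j k l : Fin 16) : Bool :=
  decide (ori i j k * ori i j l < 0) && decide (ori k l i * ori k l j < 0)

theorem gp : ∀ i j k : Fin 16, i ≠ j → j ≠ k → i ≠ k → ori i j k ≠ 0 := by
  decide +kernel

theorem crsymm (i j k l : Fin 16) : cr i j k l = cr k l i j := by
  unfold cr
  rw [Bool.and_comm]

theorem ori_swap (i j k : Fin 16) : ori j i k = - ori i j k := by
  unfold ori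
  ring

theorem cr_swap (i j k l : Fin 16) : cr j i k l = cr i j k l := by
  unfold cr
  rw [ori_swap i j k, ori_swap i j l, neg_mul_neg, mul_comm (ori k l j)]

theorem cr_swap' (i j k l : Fin 16) : cr i j l k = cr i j k l := by
  rw [crsymm, cr_swap, crsymm]

end Pool.Agent.K3h68.HE
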