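import Mathlib
import Pool.Agent.K3h68.HE.Geo
import Pool.Agent.K3h68.HE.Pts

/-!
# From the plane to the sixteen indices
-/

set_option autoImplicit false

namespace Pool.Agent.K3h68.HE

theorem sa_pt (i j k : Fin 16) : sa (pt i) (pt j) (pt k) = (ori i j k : ℝ) := by
  unfold sa pt ori
  push_cast
  ring

theorem ori_ii (i j : Fin 16) : ori i j i = 0 := by unfold ori; ring

theorem ori_ij (i j : Fin 16) : ori i j j = 0 := by unfold ori; ring

/-- the point set -/
noncomputable def S16 : Finset Pt := Finset.univ.image pt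

theorem mem_S16 {p : Pt} : p ∈ S16 ↔ ∃ i, p = pt i := by
  unfold S16
  simp only [Finset.mem_image, Finset.mem_univ, true_and]
  constructor
  · rintro ⟨i, hi⟩; exact ⟨i, hi.symm⟩
  · rintro ⟨i, hi⟩; exact ⟨i, hi.symm⟩

theorem XY_inj : ∀ i j : Fin 16, X i = X j → Y i = Y j → i = j := by
  decide +kernel

theorem pt_inj {i j : Fin 16} (h : pt i = pt j) : i = j := by
  have h1 : (X i : ℝ) = X j := congrArg Prod.fst h
  have h2 : (Y i : ℝ) = Y j := congrArg Prod.snd h
  exact XY_inj i j (by exact_mod_cast h1) (by exact_mod_cast h2)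

theorem pt_ne {i j : Fin 16} (h : i ≠ j) : pt i ≠ pt j := fun h' => h (pt_inj h')

theorem s_inj {i j k l : Fin 16} : s(pt i, pt j) = s(pt k, pt l) ↔ s(i, j) = s(k, l) := by
  rw [Sym2.eq_iff, Sym2.eq_iff]
  constructor
  · rintro (⟨h1, h2⟩ | ⟨h1, h2⟩)
    · exact Or.inl ⟨pt_inj h1, pt_inj h2⟩
    · exact Or.inr ⟨pt_inj h1, pt_inj h2⟩
  · rintro (⟨rfl, rfl⟩ | ⟨rfl, rfl⟩)
    · exact Or.inl ⟨rfl, rfl⟩
    · exact Or.inr ⟨rfl, rfl⟩

theorem isEdge_of {i j : Fin 16} (h : i ≠ j) : IsEdge S16 s(pt i, pt j) := by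
  refine ⟨?_, ?_, ?_⟩
  · rw [Sym2.mk_isDiag_iff]
    exact pt_ne h
  · intro p hp
    rw [Sym2.mem_iff] at hp
    rcases hp with rfl | rfl
    · exact mem_S16.mpr ⟨i, rfl⟩
    · exact mem_S16.mpr ⟨j, rfl⟩
  · intro p hp hs
    obtain ⟨k, rfl⟩ := mem_S16.mp hp
    have h1 := sa_seg hs
    rw [sa_pt] at h1
    have h2 : ori i j k = 0 := by exact_mod_cast h1
    rw [Sym2.mem_iff]
    by_contra hc
    push Not at hc
    exact gp i j k h (fun h' => hc.2 (by rw [h'])) (fun h' => hc.1 (by rw [h'])) h2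

theorem of_isEdge {e : Sym2 Pt} (h : IsEdge S16 e) : ∃ i j, i ≠ j ∧ e = s(pt i, pt j) := by
  induction e using Sym2.ind with
  | _ a b =>
    obtain ⟨h1, h2, -⟩ := h
    obtain ⟨i, rfl⟩ := mem_S16.mp (h2 a (by simp))
    obtain ⟨j, rfl⟩ := mem_S16.mp (h2 b (by simp))
    refine ⟨i, j, ?_, rfl⟩
    rintro rfl
    exact h1 (by simp)

theorem cr_iff (i j k l : Fin 16) : cr i j k l = true ↔
    (sa (pt i) (pt j) (pt k) * sa (pt i) (pt j) (pt l) < 0 ∧
      sa (pt k) (pt l) (pt i) * sa (pt k) (pt l) (pt j) < 0) := by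
  unfold cr
  rw [Bool.and_eq_true, decide_eq_true_eq, decide_eq_true_eq, sa_pt, sa_pt, sa_pt, sa_pt]
  constructor
  · rintro ⟨h1, h2⟩
    exact ⟨by exact_mod_cast h1, by exact_mod_cast h2⟩
  · rintro ⟨h1, h2⟩
    exact ⟨by exact_mod_cast h1, by exact_mod_cast h2⟩

theorem off_line {i j k l : Fin 16} (hij : i ≠ j) (hkl : k ≠ l) (h : s(i, j) ≠ s(k, l)) :
    sa (pt i) (pt j) (pt k) ≠ 0 ∨ sa (pt i) (pt j) (pt l) ≠ 0 := by
  rw [sa_pt, sa_pt]
  by_contra hc
  push Not at hc
  obtain ⟨h1, h2⟩ := hc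
  have h1' : ori i j k = 0 := by exact_mod_cast h1
  have h2' : ori i j l = 0 := by exact_mod_cast h2
  have hk : k = i ∨ k = j := by
    by_contra hk
    push Not at hk
    exact gp i j k hij (Ne.symm hk.2) (Ne.symm hk.1) h1'
  have hl : l = i ∨ l = j := by
    by_contra hl
    push Not at hl
    exact gp i j l hij (Ne.symm hl.2) (Ne.symm hl.1) h2'
  rcases hk with rfl | rfl
  · rcases hl with rfl | rfl
    · exact hkl rfl
    · exact h rfl
  · rcases hl with rfl | rfl
    · exact h Sym2.eq_swap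
    · exact hkl rfl

theorem cross_iff {i j k l : Fin 16} (hij : i ≠ j) (hkl : k ≠ l) (h : s(i, j) ≠ s(k, l)) :
    Cross s(pt i, pt j) s(pt k, pt l) ↔ cr i j k l = true := by
  rw [cr_iff]
  constructor
  · intro hc
    by_contra hn
    exact not_cross_of (off_line hij hkl h) (off_line hkl hij (Ne.symm h)) hn hc
  · rintro ⟨h1, h2⟩
    exact cross_of h1 h2

theorem cr_self {i j k l : Fin 16} (h : s(i, j) = s(k, l)) : cr i j k l = false := by
  rw [Sym2.eq_iff] at h
  unfold cr
  rcases h with ⟨rfl, rfl⟩ | ⟨rfl, rfl⟩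
  · rw [ori_ii, zero_mul]
    simp
  · rw [ori_ii, mul_zero]
    simp

/-- the relation of a set of segments -/
def rel (T : Set (Sym2 Pt)) (i j : Fin 16) : Prop := s(pt i, pt j) ∈ T

/-- combinatorial properties of a triangulation -/
structure Tri (h : Fin 16 → Fin 16 → Prop) : Prop where
  symm : ∀ i j, h i j → h j i
  irr : ∀ i j, h i j → i ≠ j
  nc : ∀ i j k l, h i j → h k l → cr i j k l = false
  mx : ∀ i j, i ≠ j → (∀ k l, h k l → cr i j k l = false) → h i j

theorem tri_rel {T : Set (Sym2 Pt)} (hT : IsTriangulation S16 T) : Tri (rel T) := by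
  obtain ⟨⟨h1, h2⟩, h3⟩ := hT
  have hirr : ∀ i j, rel T i j → i ≠ j := by
    rintro i j h rfl
    exact (h1 _ h).1 (by simp)
  refine ⟨?_, hirr, ?_, ?_⟩
  · intro i j h
    unfold rel at h ⊢
    rwa [Sym2.eq_swap]
  · intro i j k l hij hkl
    by_cases he : s(i, j) = s(k, l)
    · exact cr_self he
    · have := h2 _ hij _ hkl (fun h => he (s_inj.mp h))
      rw [cross_iff (hirr _ _ hij) (hirr _ _ hkl) he] at this
      simpa using this
  · intro i j hij hall
    have hpl : IsPlane S16 (insert s(pt i, pt j) T) := by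
      have hnc : ∀ f ∈ T, f ≠ s(pt i, pt j) → ¬ Cross s(pt i, pt j) f := by
        intro f hf hne
        obtain ⟨k, l, hkl, rfl⟩ := of_isEdge (h1 f hf)
        rw [cross_iff hij hkl (fun h => hne (s_inj.mpr h.symm)), hall k l hf]
        simp
      constructor
      · intro e he
        rcases Set.mem_insert_iff.mp he with rfl | he
        · exact isEdge_of hij
        · exact h1 e he
      · intro e he f hf hef
        rcases Set.mem_insert_iff.mp he with rfl | he
        · rcases Set.mem_insert_iff.mp hf with rfl | hf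
          · exact absurd rfl hef
          · exact hnc f hf (Ne.symm hef)
        · rcases Set.mem_insert_iff.mp hf with rfl | hf
          · intro hc
            exact hnc e he hef (cross_comm hc)
          · exact h2 e he f hf hef
    exact h3 hpl (Set.subset_insert _ _) (Set.mem_insert _ _)

/-- the set of segments given by a list of pairs of indices -/
def TL (L : List (Fin 16 × Fin 16)) : Set (Sym2 Pt) := {e | ∃ q ∈ L, e = s(pt q.1, pt q.2)}

/-- the pair `i j` is in the list -/
def mem2 (L : List (Fin 16 × Fin 16)) (i j : Fin 16) : Bool :=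
  L.any fun q => (q.1 == i && q.2 == j) || (q.1 == j && q.2 == i)

theorem mem2_iff {L : List (Fin 16 × Fin 16)} {i j : Fin 16} :
    mem2 L i j = true ↔ s(pt i, pt j) ∈ TL L := by
  unfold mem2 TL
  rw [List.any_eq_true]
  constructor
  · rintro ⟨q, hq, h⟩
    refine ⟨q, hq, ?_⟩
    rw [Bool.or_eq_true, Bool.and_eq_true, Bool.and_eq_true, beq_iff_eq, beq_iff_eq, beq_iff_eq,
      beq_iff_eq] at h
    rcases h with ⟨rfl, rfl⟩ | ⟨rfl, rfl⟩
    · rfl
    · exact Sym2.eq_swap
  · rintro ⟨q, hq, h⟩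
    refine ⟨q, hq, ?_⟩
    rw [s_inj, Sym2.eq_iff] at h
    rw [Bool.or_eq_true, Bool.and_eq_true, Bool.and_eq_true, beq_iff_eq, beq_iff_eq, beq_iff_eq,
      beq_iff_eq]
    rcases h with ⟨rfl, rfl⟩ | ⟨rfl, rfl⟩
    · exact Or.inl ⟨rfl, rfl⟩
    · exact Or.inr ⟨rfl, rfl⟩

/-- the list gives a triangulation -/
def okL (L : List (Fin 16 × Fin 16)) : Bool :=
  (L.all fun q => q.1 != q.2) && (L.all fun q => L.all fun r => !cr q.1 q.2 r.1 r.2) &&
  ((List.finRange 16).all fun i => (List.finRange 16).all fun j =>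
    i == j || mem2 L i j || L.any fun q => cr i j q.1 q.2)

theorem isTriangulation_of_ok {L : List (Fin 16 × Fin 16)} (h : okL L = true) :
    IsTriangulation S16 (TL L) := by
  unfold okL at h
  rw [Bool.and_eq_true, Bool.and_eq_true, List.all_eq_true, List.all_eq_true,
    List.all_eq_true] at h
  obtain ⟨⟨h1, h2⟩, h3⟩ := h
  refine ⟨⟨?_, ?_⟩, ?_⟩
  · rintro e ⟨q, hq, rfl⟩
    exact isEdge_of (by simpa using h1 q hq)
  · rintro e ⟨q, hq, rfl⟩ f ⟨r, hr, rfl⟩ hef
    have h4 := h2 q hq
    rw [List.all_eq_true] at h4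
    have h5 := h4 r hr
    rw [cross_iff (by simpa using h1 q hq) (by simpa using h1 r hr) (fun h => hef (s_inj.mpr h))]
    simpa using h5
  · intro T' hT' hsub e he
    obtain ⟨i, j, hij, rfl⟩ := of_isEdge (hT'.1 e he)
    have h4 := h3 i (List.mem_finRange i)
    rw [List.all_eq_true] at h4
    have h5 := h4 j (List.mem_finRange j)
    rw [Bool.or_eq_true, Bool.or_eq_true, beq_iff_eq] at h5
    rcases h5 with (h5 | h5) | h5
    · exact absurd h5 hij
    · exact mem2_iff.mp h5
    · rw [List.any_eq_true] at h5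
      obtain ⟨q, hq, hc⟩ := h5
      by_cases hs : s(i, j) = s(q.1, q.2)
      · exact ⟨q, hq, s_inj.mpr hs⟩
      · exfalso
        refine hT'.2 _ he _ (hsub ⟨q, hq, rfl⟩) (fun h => hs (s_inj.mp h)) ?_
        rw [cross_iff hij (by simpa using h1 q hq) hs]
        exact hc

/-- `x` is inside the triangle `i j k` -/
def ins (i j k x : Fin 16) : Bool :=
  (decide (0 < ori i j x) && decide (0 < ori j k x) && decide (0 < ori k i x)) ||
  (decide (ori i j x < 0) && decide (ori j k x < 0) && decide (ori k i x < 0))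

theorem mem_hull_of {a b c x : Pt} (h1 : 0 < sa a b x) (h2 : 0 < sa b c x) (h3 : 0 < sa c a x) :
    x ∈ convexHull ℝ ({a, b, c} : Set Pt) := by
  set D := sa a b x + sa b c x + sa c a x with hD
  have hD0 : 0 < D := by positivity
  have hconv := convex_convexHull ℝ ({a, b, c} : Set Pt)
  have ha : a ∈ convexHull ℝ ({a, b, c} : Set Pt) := subset_convexHull ℝ _ (by simp)
  have hb : b ∈ convexHull ℝ ({a, b, c} : Set Pt) := subset_convexHull ℝ _ (by simp)
  have hc : c ∈ convexHull ℝ ({a, b, c} : Set Pt) := subset_convexHull ℝ _ (by simp)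
  have hx : x = (sa b c x / D) • a + (sa c a x / D) • b + (sa a b x / D) • c := by
    ext
    · simp only [Prod.fst_add, Prod.smul_fst, smul_eq_mul]
      field_simp
      rw [hD]
      unfold sa
      ring
    · simp only [Prod.snd_add, Prod.smul_snd, smul_eq_mul]
      field_simp
      rw [hD]
      unfold sa
      ring
  -- combine `a` and `b` first
  set u := sa b c x / D with hu
  set v := sa c a x / D with hv
  set w := sa a b x / D with hw
  have hu0 : 0 < u := div_pos h2 hD0
  have hv0 : 0 < v := div_pos h3 hD0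
  have hw0 : 0 < w := div_pos h1 hD0
  have hsum : u + v + w = 1 := by
    rw [hu, hv, hw]
    field_simp
    rw [hD]
    ring
  have hy : (u / (u + v)) • a + (v / (u + v)) • b ∈ convexHull ℝ ({a, b, c} : Set Pt) :=
    hconv ha hb (by positivity) (by positivity) (by field_simp)
  have hz : (u + v) • ((u / (u + v)) • a + (v / (u + v)) • b) + w • c ∈
      convexHull ℝ ({a, b, c} : Set Pt) :=
    hconv hy hc (by positivity) (by positivity) hsum
  have he : (u + v) • ((u / (u + v)) • a + (v / (u + v)) • b) + w • c = x := by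
    rw [hx, smul_add, smul_smul, smul_smul]
    congr 3 <;> field_simp
  rwa [he] at hz

theorem ins_hull {i j k x : Fin 16} (h : ins i j k x = true) :
    pt x ∈ convexHull ℝ ({pt i, pt j, pt k} : Set Pt) := by
  unfold ins at h
  rw [Bool.or_eq_true, Bool.and_eq_true, Bool.and_eq_true, Bool.and_eq_true, Bool.and_eq_true,
    decide_eq_true_eq, decide_eq_true_eq, decide_eq_true_eq, decide_eq_true_eq,
    decide_eq_true_eq, decide_eq_true_eq] at h
  rcases h with ⟨⟨h1, h2⟩, h3⟩ | ⟨⟨h1, h2⟩, h3⟩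
  · refine mem_hull_of ?_ ?_ ?_
    · rw [sa_pt]; exact_mod_cast h1
    · rw [sa_pt]; exact_mod_cast h2
    · rw [sa_pt]; exact_mod_cast h3
  · have hset : ({pt i, pt j, pt k} : Set Pt) = {pt i, pt k, pt j} := by
      rw [Set.pair_comm (pt j)]
    rw [hset]
    refine mem_hull_of ?_ ?_ ?_
    · rw [sa_pt, ori_swap]
      have : (0 : ℤ) < - ori k i x := by linarith
      exact_mod_cast this
    · rw [sa_pt, ori_swap]
      have : (0 : ℤ) < - ori j k x := by linarith
      exact_mod_cast this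
    · rw [sa_pt, ori_swap]
      have : (0 : ℤ) < - ori i j x := by linarith
      exact_mod_cast this

/-- one parallel flip leads from the first list to the second -/
def flipL (L M : List (Fin 16 × Fin 16)) : Bool :=
  (List.finRange 16).all fun i => (List.finRange 16).all fun j =>
    !mem2 L i j || mem2 M i j || (List.finRange 16).all fun k =>
      j == k || !mem2 L i k || mem2 M i k || !mem2 L j k ||
        (List.finRange 16).any fun x => ins i j k x

theorem ins_ne {i j k x : Fin 16} (h : ins i j k x = true) : x ≠ i ∧ x ≠ j ∧ x ≠ k := by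
  unfold ins at h
  rw [Bool.or_eq_true, Bool.and_eq_true, Bool.and_eq_true, Bool.and_eq_true, Bool.and_eq_true,
    decide_eq_true_eq, decide_eq_true_eq, decide_eq_true_eq, decide_eq_true_eq,
    decide_eq_true_eq, decide_eq_true_eq] at h
  refine ⟨?_, ?_, ?_⟩
  · rintro rfl
    rcases h with ⟨⟨h1, -⟩, -⟩ | ⟨⟨h1, -⟩, -⟩ <;> rw [ori_ii] at h1 <;> exact lt_irrefl _ h1
  · rintro rfl
    rcases h with ⟨⟨h1, -⟩, -⟩ | ⟨⟨h1, -⟩, -⟩ <;> rw [ori_ij] at h1 <;> exact lt_irrefl _ h1
  · rintro rfl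
    rcases h with ⟨⟨-, h1⟩, -⟩ | ⟨⟨-, h1⟩, -⟩ <;> rw [ori_ij] at h1 <;> exact lt_irrefl _ h1

theorem flip_of {L M : List (Fin 16 × Fin 16)} (hL : okL L = true) (hM : okL M = true)
    (h : flipL L M = true) : ParallelFlip S16 (TL L) (TL M) := by
  -- what the check says
  have key : ∀ i j k : Fin 16, s(pt i, pt j) ∈ TL L → s(pt i, pt k) ∈ TL L →
      s(pt j, pt k) ∈ TL L → s(pt i, pt j) ≠ s(pt i, pt k) →
      (∀ p ∈ S16, p ∈ convexHull ℝ ({pt i, pt j, pt k} : Set Pt) →
        p = pt i ∨ p = pt j ∨ p = pt k) →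
      s(pt i, pt j) ∈ TL M ∨ s(pt i, pt k) ∈ TL M := by
    intro i j k h1 h2 h3 hne hempty
    unfold flipL at h
    rw [List.all_eq_true] at h
    have h4 := h i (List.mem_finRange i)
    rw [List.all_eq_true] at h4
    have h5 := h4 j (List.mem_finRange j)
    rw [← mem2_iff] at h1 h2 h3
    rw [← mem2_iff, ← mem2_iff]
    rw [h1] at h5
    simp only [Bool.not_true, Bool.false_or, Bool.or_eq_true] at h5
    rcases h5 with h5 | h5
    · exact Or.inl h5
    · rw [List.all_eq_true] at h5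
      have h6 := h5 k (List.mem_finRange k)
      rw [h2, h3] at h6
      simp only [Bool.not_true, Bool.or_false, Bool.or_eq_true, beq_iff_eq] at h6
      rcases h6 with (h6 | h6) | h6
      · subst h6
        exact absurd rfl hne
      · exact Or.inr h6
      · rw [List.any_eq_true] at h6
        obtain ⟨x, -, hx⟩ := h6
        exfalso
        obtain ⟨n1, n2, n3⟩ := ins_ne hx
        rcases hempty (pt x) (mem_S16.mpr ⟨x, rfl⟩) (ins_hull hx) with h' | h' | h'
        · exact n1 (pt_inj h')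
        · exact n2 (pt_inj h')
        · exact n3 (pt_inj h')
  refine ⟨TL L \ TL M, Set.diff_subset, ?_, TL M \ TL L, ?_, isTriangulation_of_ok hM⟩
  · rintro e ⟨heL, heM⟩ f ⟨hfL, hfM⟩ hef ⟨a, b, c, ⟨hab, hbc, hac, hempty⟩, he, hf⟩
    have hT := isTriangulation_of_ok hL
    obtain ⟨i, rfl⟩ := mem_S16.mp ((hT.1.1 _ hab).2.1 a (by simp))
    obtain ⟨j, rfl⟩ := mem_S16.mp ((hT.1.1 _ hab).2.1 b (by simp))
    obtain ⟨k, rfl⟩ := mem_S16.mp ((hT.1.1 _ hbc).2.1 c (by simp))
    have hba : s(pt j, pt i) ∈ TL L := by rwa [Sym2.eq_swap]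
    have hcb : s(pt k, pt j) ∈ TL L := by rwa [Sym2.eq_swap]
    have hca : s(pt k, pt i) ∈ TL L := by rwa [Sym2.eq_swap]
    have sw : ∀ a b : Pt, s(a, b) = s(b, a) := fun a b => Sym2.eq_swap
    have e1 := key i j k hab hac hbc
    have e2 := key j i k hba hbc hac
    have e3 := key k i j hca hcb hab
    have hs2 : ({pt j, pt i, pt k} : Set Pt) = {pt i, pt j, pt k} := Set.insert_comm _ _ _
    have hs3 : ({pt k, pt i, pt j} : Set Pt) = {pt i, pt j, pt k} := by
      rw [Set.insert_comm, Set.pair_comm]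
    have em1 : ∀ p ∈ S16, p ∈ convexHull ℝ ({pt i, pt j, pt k} : Set Pt) →
        p = pt i ∨ p = pt j ∨ p = pt k := hempty
    have em2 : ∀ p ∈ S16, p ∈ convexHull ℝ ({pt j, pt i, pt k} : Set Pt) →
        p = pt j ∨ p = pt i ∨ p = pt k := by
      rw [hs2]; intro p hp hp'; have := hempty p hp hp'; tauto
    have em3 : ∀ p ∈ S16, p ∈ convexHull ℝ ({pt k, pt i, pt j} : Set Pt) →
        p = pt k ∨ p = pt i ∨ p = pt j := by
      rw [hs3]; intro p hp hp'; have := hempty p hp hp'; tauto
    simp only [Set.mem_insert_iff, Set.mem_singleton_iff] at he hf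
    rcases he with rfl | rfl | rfl <;> rcases hf with rfl | rfl | rfl
    · exact hef rfl
    · rcases e2 (by rw [sw (pt j) (pt i)]; exact hef) em2 with h' | h'
      · exact heM (by rwa [sw])
      · exact hfM h'
    · rcases e1 hef em1 with h' | h'
      · exact heM h'
      · exact hfM h'
    · rcases e2 (by rw [sw (pt j) (pt i)]; exact Ne.symm hef) em2 with h' | h'
      · exact hfM (by rwa [sw])
      · exact heM h'
    · exact hef rfl
    · rcases e3 (by rw [sw (pt k) (pt i), sw (pt k) (pt j)]; exact Ne.symm hef) em3 with h' | h'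
      · exact hfM (by rwa [sw])
      · exact heM (by rwa [sw])
    · rcases e1 (Ne.symm hef) em1 with h' | h'
      · exact hfM h'
      · exact heM h'
    · rcases e3 (by rw [sw (pt k) (pt i), sw (pt k) (pt j)]; exact hef) em3 with h' | h'
      · exact heM (by rwa [sw])
      · exact hfM (by rwa [sw])
    · exact hef rfl
  · ext e
    simp only [Set.mem_union, Set.mem_diff]
    tauto

end Pool.Agent.K3h68.HE
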