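import Mathlib
import Pool.Agent.K3h68.HE.Comb

/-!
# Paths that keep the common edges have length at least twelve
-/

set_option autoImplicit false

namespace Pool.Agent.K3h68.HE

/-- the lower chain, from left to right -/
def lo (i : Fin 7) : Fin 16 := ⟨i.val, by omega⟩

/-- the upper chain, from left to right -/
def up (i : Fin 7) : Fin 16 := ⟨14 - i.val, by omega⟩

/-- the edges of the two chains and the edge between their left ends -/
def CH : List (Fin 16 × Fin 16) :=
  [(0, 1), (1, 2), (2, 3), (3, 4), (4, 5), (5, 6), (8, 9), (9, 10), (10, 11), (11, 12), (12, 13),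
    (13, 14), (0, 14)]

/-- the triangle `i j k` contains no further point -/
def emp (i j k : Fin 16) : Bool :=
  (List.finRange 16).all fun x => x == i || x == j || x == k ||
    (decide (0 < ori i j k) &&
      (decide (ori i j x < 0) || decide (ori j k x < 0) || decide (ori k i x < 0))) ||
    (decide (ori i j k < 0) &&
      (decide (0 < ori i j x) || decide (0 < ori j k x) || decide (0 < ori k i x)))

theorem ori_cyc (i j k : Fin 16) : ori j k i = ori i j k := by unfold ori; ring

theorem emp_hull {i j k : Fin 16} (h : emp i j k = true) : ∀ p ∈ S16,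
    p ∈ convexHull ℝ ({pt i, pt j, pt k} : Set Pt) → p = pt i ∨ p = pt j ∨ p = pt k := by
  intro p hp hh
  obtain ⟨x, rfl⟩ := mem_S16.mp hp
  unfold emp at h
  rw [List.all_eq_true] at h
  have hx := h x (List.mem_finRange x)
  have pos : ∀ a b : Fin 16, 0 ≤ ori a b i → 0 ≤ ori a b j → 0 ≤ ori a b k → 0 ≤ ori a b x := by
    intro a b h1 h2 h3
    have := sa_nonneg_hull (p := pt a) (q := pt b) (a := pt i) (b := pt j) (c := pt k)
      (x := pt x) (by rw [sa_pt]; exact_mod_cast h1) (by rw [sa_pt]; exact_mod_cast h2)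
      (by rw [sa_pt]; exact_mod_cast h3) hh
    rw [sa_pt] at this
    exact_mod_cast this
  simp only [Bool.or_eq_true, Bool.and_eq_true, beq_iff_eq, decide_eq_true_eq] at hx
  have c1 := ori_cyc i j k
  have c2 := ori_cyc j k i
  rcases hx with ((((rfl | rfl) | rfl) | ⟨h1, (h2 | h2) | h2⟩) | ⟨h1, (h2 | h2) | h2⟩)
  · exact Or.inl rfl
  · exact Or.inr (Or.inl rfl)
  · exact Or.inr (Or.inr rfl)
  · exfalso
    have := pos i j (by rw [ori_ii]) (by rw [ori_ij]) h1.le
    omega
  · exfalso
    have := pos j k (by omega) (by rw [ori_ii]) (by rw [ori_ij])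
    omega
  · exfalso
    have := pos k i (by rw [ori_ij]) (by omega) (by rw [ori_ii])
    omega
  · exfalso
    have e1 := ori_swap i j k
    have e2 := ori_swap i j x
    have := pos j i (by rw [ori_ij]) (by rw [ori_ii]) (by omega)
    omega
  · exfalso
    have e1 := ori_swap j k i
    have e2 := ori_swap j k x
    have := pos k j (by omega) (by rw [ori_ij]) (by rw [ori_ii])
    omega
  · exfalso
    have e1 := ori_swap k i j
    have e2 := ori_swap k i x
    have := pos i k (by rw [ori_ii]) (by omega) (by rw [ori_ij])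
    omega

/-- of two edges of a common empty triangle one survives -/
def FlipRel (h h' : Fin 16 → Fin 16 → Prop) : Prop :=
  ∀ i j k, h i j → h i k → h j k → emp i j k = true → h' i j ∨ h' i k

theorem flipRel_of {T T' : Set (Sym2 Pt)} (hT : IsTriangulation S16 T)
    (h : ParallelFlip S16 T T') : FlipRel (rel T) (rel T') := by
  obtain ⟨E, hE, hE2, E', hT', -⟩ := h
  intro i j k hij hik hjk hemp
  by_contra hc
  push Not at hc
  obtain ⟨h1, h2⟩ := hc
  have m1 : s(pt i, pt j) ∈ E := by
    by_contra hn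
    exact h1 (by unfold rel; rw [hT']; exact Or.inl ⟨hij, hn⟩)
  have m2 : s(pt i, pt k) ∈ E := by
    by_contra hn
    exact h2 (by unfold rel; rw [hT']; exact Or.inl ⟨hik, hn⟩)
  have hne : s(pt i, pt j) ≠ s(pt i, pt k) := by
    intro he
    rw [s_inj, Sym2.eq_iff] at he
    have hjk' := (tri_rel hT).irr _ _ hjk
    have hij' := (tri_rel hT).irr _ _ hij
    rcases he with ⟨-, he⟩ | ⟨-, he⟩
    · exact hjk' he
    · exact hij' he.symm
  exact hE2 _ m1 _ m2 hne ⟨pt i, pt j, pt k, ⟨hij, hjk, hik, emp_hull hemp⟩, by simp, by simp⟩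

/-- the facts about crossings used below -/
structure Facts (l u : Fin 7 → Fin 16) : Prop where
  ne : ∀ i j, l i ≠ u j
  neA : ∀ i, (7 : Fin 16) ≠ l i
  hull : ∀ k m, cr 7 (l 6) k m = false
  chain : ∀ i' i : Fin 7, i'.val + 1 = i.val → (l i', l i) ∈ CH ∨ (l i, l i') ∈ CH
  d1 : ∀ i j : Fin 7, ∀ k m : Fin 16, cr (l i) (u j) k m = true →
    cr 7 (l i) k m = true ∨ cr 7 (u j) k m = true ∨ (∃ q ∈ CH, cr q.1 q.2 k m = true) ∨
      (∃ s, s < i ∧ ((k = 7 ∧ m = l s) ∨ (m = 7 ∧ k = l s))) ∨
      (∃ s, s < j ∧ ((k = 7 ∧ m = u s) ∨ (m = 7 ∧ k = u s)))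
  d3 : ∀ i s : Fin 7, i < s → ∀ k m : Fin 16, cr 7 (l s) k m = true →
    cr 7 (l i) k m = true ∨ (∃ q ∈ CH, cr q.1 q.2 k m = true)
  d4 : ∀ i' i j : Fin 7, i'.val + 1 = i.val → ∀ k m : Fin 16, cr (l i') (u j) k m = true →
    cr (l i) (u j) k m = true ∨ (∃ q ∈ CH, cr q.1 q.2 k m = true) ∨
      (∃ t, t < j ∧ ((k = l i ∧ m = u t) ∨ (m = l i ∧ k = u t)))
  d5 : ∀ s i j : Fin 7, s < i → cr 7 (l s) (l i) (u j) = true
  d6 : ∀ s i t j : Fin 7, s < i → t < j → cr (l i) (u t) (l s) (u j) = true
  e1 : ∀ i' i : Fin 7, i'.val + 1 = i.val → emp 7 (l i') (l i) = true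
  e2 : ∀ i j : Fin 7, emp 7 (l i) (u j) = true
  e3 : ∀ i' i j : Fin 7, i'.val + 1 = i.val → emp (u j) (l i) (l i') = true
  e4 : ∀ i j : Fin 7, emp (u j) 7 (l i) = true
  e5 : ∀ j' j i : Fin 7, j'.val + 1 = j.val → emp (l i) (u j) (u j') = true

theorem facts_lo_up : Facts lo up where
  ne := by decide +kernel
  neA := by decide +kernel
  hull := by decide +kernel
  chain := by decide +kernel
  d1 := by decide +kernel
  d3 := by decide +kernel
  d4 := by decide +kernel
  d5 := by decide +kernel
  d6 := by decide +kernel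
  e1 := by decide +kernel
  e2 := by decide +kernel
  e3 := by decide +kernel
  e4 := by decide +kernel
  e5 := by decide +kernel

theorem facts_up_lo : Facts up lo where
  ne := by decide +kernel
  neA := by decide +kernel
  hull := by decide +kernel
  chain := by decide +kernel
  d1 := by decide +kernel
  d3 := by decide +kernel
  d4 := by decide +kernel
  d5 := by decide +kernel
  d6 := by decide +kernel
  e1 := by decide +kernel
  e2 := by decide +kernel
  e3 := by decide +kernel
  e4 := by decide +kernel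
  e5 := by decide +kernel

end Pool.Agent.K3h68.HE
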