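import Mathlib
import Pool.Agent.K3h68.HE.Comb

/-!
# A path of length eleven
-/

set_option autoImplicit false

namespace Pool.Agent.K3h68.HE

/-- the edges outside the polygon and on its boundary, common to all triangulations of the path -/
def C0 : List (Fin 16 × Fin 16) := [
    (0, 1), (0, 2), (0, 3), (0, 4), (0, 5), (0, 6), (0, 15), (1, 2), (2, 3), (3, 4), (4, 5),
    (5, 6), (6, 7), (7, 8), (8, 9), (8, 14), (9, 10), (9, 14), (10, 11), (10, 14), (11, 12),
    (11, 14), (12, 13), (12, 14), (13, 14), (14, 15)]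

/-- the inner diagonals of the triangulations of the path -/
def DG : List (List (Fin 16 × Fin 16)) := [
  [(0, 14), (1, 14), (2, 14), (3, 14), (4, 14), (5, 14), (6, 14), (7, 9), (7, 10), (7, 11),
    (7, 12), (7, 13), (7, 14)],
  [(1, 14), (1, 15), (2, 14), (3, 14), (4, 14), (5, 7), (5, 14), (7, 9), (7, 10), (7, 11),
    (7, 12), (7, 13), (7, 14)],
  [(1, 15), (2, 14), (2, 15), (3, 14), (4, 7), (4, 14), (5, 7), (7, 9), (7, 10), (7, 11),
    (7, 12), (7, 13), (7, 14)],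
  [(1, 15), (2, 15), (3, 7), (3, 14), (3, 15), (4, 7), (5, 7), (7, 9), (7, 10), (7, 11),
    (7, 12), (7, 13), (7, 14)],
  [(1, 15), (2, 15), (3, 7), (3, 15), (4, 7), (5, 7), (7, 9), (7, 10), (7, 11), (7, 12),
    (7, 13), (7, 14), (7, 15)],
  [(1, 15), (2, 7), (2, 15), (3, 7), (4, 7), (5, 7), (7, 9), (7, 10), (7, 11), (7, 12),
    (7, 13), (7, 15), (13, 15)],
  [(1, 7), (1, 15), (2, 7), (3, 7), (4, 7), (5, 7), (7, 9), (7, 10), (7, 11), (7, 12),
    (7, 15), (12, 15), (13, 15)],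
  [(0, 7), (1, 7), (2, 7), (3, 7), (4, 7), (5, 7), (7, 9), (7, 10), (7, 11), (7, 15),
    (11, 15), (12, 15), (13, 15)],
  [(0, 7), (0, 11), (1, 7), (2, 7), (3, 7), (4, 7), (5, 7), (7, 9), (7, 10), (7, 11),
    (11, 15), (12, 15), (13, 15)],
  [(0, 7), (0, 10), (0, 11), (0, 12), (1, 7), (2, 7), (3, 7), (4, 7), (5, 7), (7, 9), (7, 10),
    (12, 15), (13, 15)],
  [(0, 7), (0, 9), (0, 10), (0, 11), (0, 12), (0, 13), (1, 7), (2, 7), (3, 7), (4, 7), (5, 7),
    (7, 9), (13, 15)],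
  [(0, 7), (0, 8), (0, 9), (0, 10), (0, 11), (0, 12), (0, 13), (0, 14), (1, 7), (2, 7),
    (3, 7), (4, 7), (5, 7)]]

/-- the triangulations of the path -/
def LL (m : ℕ) : List (Fin 16 × Fin 16) := DG.getD m [] ++ C0

theorem okLL : ((List.range 12).all fun m => okL (LL m)) = true := by
  decide +kernel

theorem flipLL : ((List.range 11).all fun m => flipL (LL m) (LL (m + 1))) = true := by
  decide +kernel

end Pool.Agent.K3h68.HE
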