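import Mathlib
import Pool.Agent.K3h68.HE.Low
import Pool.Agent.K3h68.HE.Path

/-!
# The counterexample
-/

set_option autoImplicit false

namespace Pool.Agent.K3h68.HE

/-- the first neighbour of the right end `7` on the chain `l` is `l i` -/
def Fst (h : Fin 16 → Fin 16 → Prop) (l : Fin 7 → Fin 16) (i : Fin 7) : Prop :=
  h 7 (l i) ∧ ∀ s, s < i → ¬ h 7 (l s)

/-- the common edges are kept -/
def Base (h : Fin 16 → Fin 16 → Prop) : Prop := ∀ q ∈ CH, h q.1 q.2

section

variable {l u : Fin 7 → Fin 16} {h h' : Fin 16 → Fin 16 → Prop}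

theorem exists_fst (F : Facts l u) (hT : Tri h) : ∃ i, Fst h l i := by
  classical
  have h6 : h 7 (l 6) := hT.mx _ _ (F.neA 6) (fun k m _ => F.hull k m)
  have hne : (Finset.univ.filter fun i => h 7 (l i)).Nonempty :=
    ⟨6, Finset.mem_filter.mpr ⟨Finset.mem_univ _, h6⟩⟩
  refine ⟨(Finset.univ.filter fun i => h 7 (l i)).min' hne, ?_, ?_⟩
  · exact (Finset.mem_filter.mp (Finset.min'_mem _ hne)).2
  · intro s hs hs'
    have := Finset.min'_le (Finset.univ.filter fun i => h 7 (l i)) s
      (Finset.mem_filter.mpr ⟨Finset.mem_univ _, hs'⟩)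
    exact absurd hs (not_lt.mpr this)

theorem base_nc (hT : Tri h) (hB : Base h) {k m : Fin 16} (hkm : h k m) :
    ¬ ∃ q ∈ CH, cr q.1 q.2 k m = true := by
  rintro ⟨q, hq, hc⟩
  rw [hT.nc _ _ _ _ (hB q hq) hkm] at hc
  exact absurd hc (by simp)

theorem apex (F : Facts l u) (hT : Tri h) (hB : Base h) {i j : Fin 7} (hi : Fst h l i)
    (hj : Fst h u j) : h (l i) (u j) := by
  refine hT.mx _ _ (F.ne i j) ?_
  intro k m hkm
  by_contra hc
  rw [Bool.not_eq_false] at hc
  rcases F.d1 i j k m hc with h1 | h1 | h1 | ⟨s, hs, h1⟩ | ⟨s, hs, h1⟩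
  · rw [hT.nc _ _ _ _ hi.1 hkm] at h1
    exact absurd h1 (by simp)
  · rw [hT.nc _ _ _ _ hj.1 hkm] at h1
    exact absurd h1 (by simp)
  · exact base_nc hT hB hkm h1
  · rcases h1 with ⟨rfl, rfl⟩ | ⟨rfl, rfl⟩
    · exact hi.2 s hs hkm
    · exact hi.2 s hs (hT.symm _ _ hkm)
  · rcases h1 with ⟨rfl, rfl⟩ | ⟨rfl, rfl⟩
    · exact hj.2 s hs hkm
    · exact hj.2 s hs (hT.symm _ _ hkm)

theorem later (F : Facts l u) (hT : Tri h) (hB : Base h) {i s : Fin 7} (hi : Fst h l i)
    (his : i < s) : h 7 (l s) := by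
  refine hT.mx _ _ (F.neA s) ?_
  intro k m hkm
  by_contra hc
  rw [Bool.not_eq_false] at hc
  rcases F.d3 i s his k m hc with h1 | h1
  · rw [hT.nc _ _ _ _ hi.1 hkm] at h1
    exact absurd h1 (by simp)
  · exact base_nc hT hB hkm h1

theorem chain_mem (F : Facts l u) (hT : Tri h) (hB : Base h) {i' i : Fin 7}
    (hi : i'.val + 1 = i.val) : h (l i') (l i) := by
  rcases F.chain i' i hi with h1 | h1
  · exact hB _ h1
  · exact hT.symm _ _ (hB _ h1)

/-- the next triangle behind the edge `l i`, `u j`, if it is not based on the chain `l` -/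
theorem behind (F : Facts l u) (hT : Tri h) (hB : Base h) {i' i j : Fin 7}
    (hi : i'.val + 1 = i.val) (hij : h (l i) (u j)) :
    h (l i') (u j) ∨ ∃ t, t < j ∧ h (l i) (u t) := by
  by_contra hn
  push Not at hn
  refine hn.1 (hT.mx _ _ (F.ne i' j) ?_)
  intro k m hkm
  by_contra hc
  rw [Bool.not_eq_false] at hc
  rcases F.d4 i' i j hi k m hc with h1 | h1 | ⟨t, ht, h1⟩
  · rw [hT.nc _ _ _ _ hij hkm] at h1
    exact absurd h1 (by simp)
  · exact base_nc hT hB hkm h1
  · rcases h1 with ⟨rfl, rfl⟩ | ⟨rfl, rfl⟩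
    · exact hn.2 t ht hkm
    · exact hn.2 t ht (hT.symm _ _ hkm)

/-- the first neighbour moves to the right by at most one -/
theorem step_right (F : Facts l u) (hT : Tri h) (hB : Base h) (hR : FlipRel h h') {i i' : Fin 7}
    (hi : Fst h l i) (hi' : Fst h' l i') : i'.val ≤ i.val + 1 := by
  by_contra hc
  push Not at hc
  have hlt : i.val + 1 < 7 := by omega
  set n : Fin 7 := ⟨i.val + 1, hlt⟩ with hn
  have hin : i < n := by rw [Fin.lt_def]; simp [hn]
  have hni' : n < i' := by rw [Fin.lt_def]; simpa [hn] using hc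
  have h1 : h 7 (l n) := later F hT hB hi hin
  have h2 : h (l i) (l n) := chain_mem F hT hB (by simp [hn])
  rcases hR 7 (l i) (l n) hi.1 h1 h2 (F.e1 i n (by simp [hn])) with h3 | h3
  · exact hi'.2 i (lt_trans hin hni') h3
  · exact hi'.2 n hni' h3

/-- the first neighbours do not both move to the right -/
theorem step_both (F : Facts l u) (hT : Tri h) (hB : Base h) (hR : FlipRel h h')
    {i i' j j' : Fin 7} (hi : Fst h l i) (hi' : Fst h' l i') (hj : Fst h u j)
    (hj' : Fst h' u j') : ¬ (i < i' ∧ j < j') := by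
  rintro ⟨h1, h2⟩
  rcases hR 7 (l i) (u j) hi.1 hj.1 (apex F hT hB hi hj) (F.e2 i j) with h3 | h3
  · exact hi'.2 i h1 h3
  · exact hj'.2 j h2 h3

/-- if the first neighbour moves to the left, it moves by one, and the other one does not move -/
theorem step_left (F : Facts l u) (G : Facts u l) (hT : Tri h) (hT' : Tri h') (hB : Base h)
    (hR : FlipRel h h') {i i' j j' : Fin 7} (hi : Fst h l i) (hi' : Fst h' l i')
    (hj : Fst h u j) (hj' : Fst h' u j') (hlt : i' < i) : i'.val + 1 = i.val ∧ j' = j := by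
  have hij := apex F hT hB hi hj
  have hpos : 0 < i.val := by
    have := Fin.lt_def.mp hlt
    omega
  set n : Fin 7 := ⟨i.val - 1, by omega⟩ with hn
  have hni : n.val + 1 = i.val := by simp [hn]; omega
  have hi'n : i' ≤ n := by rw [Fin.le_def, hn]; have := Fin.lt_def.mp hlt; simp; omega
  -- the edge `l i`, `u j` is removed
  have hrem : ¬ h' (l i) (u j) := by
    intro hc
    have := hT'.nc _ _ _ _ hi'.1 hc
    rw [F.d5 i' i j hlt] at this
    exact absurd this (by simp)
  rcases behind F hT hB hni hij with hb | ⟨t, ht, hb⟩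
  · -- the triangle behind is based on the chain `l`
    have hkeep : h' (l n) (u j) := by
      rcases hR (u j) (l i) (l n) (hT.symm _ _ hij) (hT.symm _ _ hb)
        (hT.symm _ _ (chain_mem F hT hB hni)) (F.e3 n i j hni) with h3 | h3
      · exact absurd (hT'.symm _ _ h3) hrem
      · exact hT'.symm _ _ h3
    have h1 : i' = n := by
      rcases lt_or_eq_of_le hi'n with h4 | h4
      · exfalso
        have := hT'.nc _ _ _ _ hi'.1 hkeep
        rw [F.d5 i' n j h4] at this
        exact absurd this (by simp)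
      · exact h4
    have h2 : ¬ j' < j := by
      intro hjj
      have := hT'.nc _ _ _ _ hj'.1 (hT'.symm _ _ hkeep)
      rw [G.d5 j' j n hjj] at this
      exact absurd this (by simp)
    have h3 : ¬ j < j' := by
      intro hjj
      rcases hR (u j) 7 (l i) (hT.symm _ _ hj.1) (hT.symm _ _ hij) hi.1 (F.e4 i j) with h5 | h5
      · exact hj'.2 j hjj (hT'.symm _ _ h5)
      · exact hrem (hT'.symm _ _ h5)
    exact ⟨by rw [h1]; exact hni, le_antisymm (not_lt.mp h3) (not_lt.mp h2)⟩
  · -- the triangle behind is based on the chain `u`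
    exfalso
    have hjpos : 0 < j.val := by
      have := Fin.lt_def.mp ht
      omega
    set r : Fin 7 := ⟨j.val - 1, by omega⟩ with hr
    have hrj : r.val + 1 = j.val := by simp [hr]; omega
    have hb2 : h (l i) (u r) := by
      rcases behind G hT hB hrj (hT.symm _ _ hij) with hb3 | ⟨s, hs, hb3⟩
      · exact hT.symm _ _ hb3
      · exfalso
        have := hT.nc _ _ _ _ hb (hT.symm _ _ hb3)
        rw [F.d6 s i t j hs ht] at this
        exact absurd this (by simp)
    have hkeep : h' (l i) (u r) := by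
      rcases hR (l i) (u j) (u r) hij hb2 (hT.symm _ _ (chain_mem G hT hB hrj))
        (F.e5 r j i hrj) with h3 | h3
      · exact absurd h3 hrem
      · exact h3
    have := hT'.nc _ _ _ _ hi'.1 hkeep
    rw [F.d5 i' i r hlt] at this
    exact absurd this (by simp)

end

/-- one parallel flip that keeps the common edges moves at most one of the two first neighbours,
and by at most one -/
theorem step {h h' : Fin 16 → Fin 16 → Prop} (hT : Tri h) (hT' : Tri h') (hB : Base h)
    (hR : FlipRel h h') {i i' j j' : Fin 7} (hi : Fst h lo i) (hi' : Fst h' lo i')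
    (hj : Fst h up j) (hj' : Fst h' up j') :
    (6 - i'.val) + j'.val ≤ (6 - i.val) + j.val + 1 := by
  have F := facts_lo_up
  have G := facts_up_lo
  have r1 := step_right F hT hB hR hi hi'
  have r2 := step_right G hT hB hR hj hj'
  by_cases h1 : i' < i
  · obtain ⟨h2, h3⟩ := step_left F G hT hT' hB hR hi hi' hj hj' h1
    rw [h3]
    omega
  · have h1' := Fin.le_def.mp (not_lt.mp h1)
    omega

/-- from the first to the last triangulation while keeping the common edges -/
theorem twelve_le {l : ℕ} {P : ℕ → Set (Sym2 Pt)} (hP : IsPath S16 (TL (LL 0)) (TL (LL 11)) l P)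
    (hk : ∀ i ≤ l, Base (rel (P i))) : 12 ≤ l := by
  obtain ⟨hP0, hPl, hPT, hPF⟩ := hP
  have key : ∀ m ≤ l, ∀ i j : Fin 7, Fst (rel (P m)) lo i → Fst (rel (P m)) up j →
      (6 - i.val) + j.val ≤ m := by
    intro m
    induction m with
    | zero =>
      intro _ i j hi hj
      have hi6 : i = 6 := by
        have h1 := hi.1
        rw [hP0] at h1
        have aux : ∀ i : Fin 7, mem2 (LL 0) 7 (lo i) = true → i = 6 := by decide +kernel
        exact aux i (mem2_iff.mpr h1)
      have hj0 : j = 0 := by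
        by_contra hne
        have h0 : (0 : Fin 7) < j := Fin.pos_of_ne_zero hne
        apply hj.2 0 h0
        rw [hP0]
        exact mem2_iff.mp (by decide +kernel)
      subst hi6 hj0
      simp
    | succ m ih =>
      intro hm i' j' hi' hj'
      have hm' : m ≤ l := by omega
      have hT := tri_rel (hPT m hm')
      have hT' := tri_rel (hPT (m + 1) hm)
      obtain ⟨i, hi⟩ := exists_fst facts_lo_up hT
      obtain ⟨j, hj⟩ := exists_fst facts_up_lo hT
      have h1 := ih hm' i j hi hj
      have h2 := step hT hT' (hk m hm') (flipRel_of (hPT m hm') (hPF m (by omega))) hi hi' hj hj'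
      omega
  have hT := tri_rel (hPT l le_rfl)
  obtain ⟨i, hi⟩ := exists_fst facts_lo_up hT
  obtain ⟨j, hj⟩ := exists_fst facts_up_lo hT
  have h1 := key l le_rfl i j hi hj
  have hi0 : i = 0 := by
    by_contra hne
    have h0 : (0 : Fin 7) < i := Fin.pos_of_ne_zero hne
    apply hi.2 0 h0
    rw [hPl]
    exact mem2_iff.mp (by decide +kernel)
  have hj6 : j = 6 := by
    have h2 := hj.1
    rw [hPl] at h2
    have aux : ∀ j : Fin 7, mem2 (LL 11) 7 (up j) = true → j = 6 := by decide +kernel
    exact aux j (mem2_iff.mpr h2)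
  subst hi0 hj6
  simpa using h1

/-- the explicit path -/
theorem path11 : IsPath S16 (TL (LL 0)) (TL (LL 11)) 11 (fun m => TL (LL m)) := by
  have h1 := okLL
  have h2 := flipLL
  rw [List.all_eq_true] at h1 h2
  refine ⟨rfl, rfl, ?_, ?_⟩
  · intro i hi
    exact isTriangulation_of_ok (h1 i (List.mem_range.mpr (by omega)))
  · intro i hi
    exact flip_of (h1 i (List.mem_range.mpr (by omega)))
      (h1 (i + 1) (List.mem_range.mpr (by omega))) (h2 i (List.mem_range.mpr hi))

theorem exists_shortest {S : Finset Pt} {T T' : Set (Sym2 Pt)} {n : ℕ}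
    {P : ℕ → Set (Sym2 Pt)} (h : IsPath S T T' n P) : ∃ l Q, IsShortest S T T' l Q := by
  classical
  have hex : ∃ l, ∃ Q, IsPath S T T' l Q := ⟨n, P, h⟩
  obtain ⟨Q, hQ⟩ := Nat.find_spec hex
  exact ⟨Nat.find hex, Q, hQ, fun m R hR => Nat.find_min' hex ⟨R, hR⟩⟩

theorem main_ex : IsTriangulation S16 (TL (LL 0)) ∧ IsTriangulation S16 (TL (LL 11)) ∧
    (∃ l P, IsShortest S16 (TL (LL 0)) (TL (LL 11)) l P) ∧
    ∀ l P, IsShortest S16 (TL (LL 0)) (TL (LL 11)) l P →
      ∃ i, 0 < i ∧ i < l ∧ ∃ e ∈ TL (LL 0) ∩ TL (LL 11), e ∉ P i := by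
  have h1 := okLL
  rw [List.all_eq_true] at h1
  refine ⟨isTriangulation_of_ok (h1 0 (by simp)), isTriangulation_of_ok (h1 11 (by simp)),
    exists_shortest path11, ?_⟩
  intro l P hP
  by_contra hn
  push Not at hn
  have hl : l ≤ 11 := hP.2 11 _ path11
  have hall : ∀ q : Fin 16 × Fin 16, q ∈ CH → mem2 (LL 0) q.1 q.2 = true ∧
      mem2 (LL 11) q.1 q.2 = true := by
    decide +kernel
  have hk : ∀ i ≤ l, Base (rel (P i)) := by
    intro i hi q hq
    obtain ⟨q1, q2⟩ := hall q hq
    have m1 := mem2_iff.mp q1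
    have m2 := mem2_iff.mp q2
    rcases Nat.eq_zero_or_pos i with rfl | hpos
    · unfold rel
      rw [hP.1.1]
      exact m1
    · rcases Nat.lt_or_ge i l with hil | hil
      · exact hn i hpos hil _ ⟨m1, m2⟩
      · have : i = l := le_antisymm hi hil
        subst this
        unfold rel
        rw [hP.1.2.1]
        exact m2
  have := twelve_le hP.1 hk
  omega

end Pool.Agent.K3h68.HE
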